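import Pool.Agent.T9h75.WX.Main

set_option autoImplicit false

namespace Pool.Agent.Results.MP_5f6b2a_lc.AntitoneOracles

open Pool.Agent.T9h75.WX

/-- **Arbitrary antitone functions do not help reductions between consecutive levels of the
W-hierarchy, unless there are almost as many of them as input bits.**
Let `t, ρ, c, d, e, g, δ` be arbitrary (`e ≥ 1`, and `δ ≤ 1` if `t` is odd) and
`k ≥ c e + t + 3`.  For all sufficiently large `m`, all `m ≤ n ≤ m ^ d` and
`N, M ≤ m ^ d` and all `τ`: let `O 0, …, O (τ - 1)` be any antitone Boolean functions of the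
instance `z`, and let `C` be a circuit without NOT gates and with at most `m ^ c` gates (ANDs of ORs
and ORs of ANDs of unbounded fan-in with inner fan-in at most `δ`) that reads `z` and the values
`O j z`.  If `C` maps all instances `z` (with `n` variables and `m` values for every index, that is,
with `n * m ^ (t + 1)` input bits) of the complete problem `WSat (t + 1) 1 k` of `W[t + 2]` to
equivalent instances of the complete problem `WSat t ρ g` of `W[t + 1]`, then
`(n * m ^ (t + 1)) ^ e < m ^ (t + 2) * (4 ^ (t + 2) * k * (τ + 1)) ^ e`. -/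
theorem result (t ρ c d e k g δ : ℕ) (hδ : δ ≤ 1 ∨ Even t) (he : 1 ≤ e)
    (hk : c * e + t + 3 ≤ k) :
    ∃ m₀, ∀ m ≥ m₀, ∀ n, m ≤ n → n ≤ m ^ d → ∀ N ≤ m ^ d, ∀ M ≤ m ^ d, ∀ τ : ℕ,
    ∀ O : Fin τ → ((Fin 1 → Fin n) × (Fin (t + 1) → Fin m) → Prop) → Prop,
    (∀ j, Antitone (O j)) →
    ∀ C : Circuit (((Fin 1 → Fin n) × (Fin (t + 1) → Fin m)) ⊕ Fin τ)
      ((Fin ρ → Fin N) × (Fin t → Fin M)),
    C.Width δ → C.nots = 0 → C.size ≤ m ^ c → ReducesWith O C k g →
      (n * m ^ (t + 1)) ^ e < m ^ (t + 2) * (4 ^ (t + 2) * k * (τ + 1)) ^ e :=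
  main_oracle t ρ c d e k g δ hδ he hk

end Pool.Agent.Results.MP_5f6b2a_lc.AntitoneOracles
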