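import Pool.Agent.T9h75.WX.Main

set_option autoImplicit false

namespace Pool.Agent.Results.MP_5f6b2a_lc.SharpNegations

open Pool.Agent.T9h75.WX

/-- **Reductions between consecutive levels of the W-hierarchy need almost all the NOT gates that
can ever be needed.**
Let `t, ρ, c, d, e, g, δ` be arbitrary (`e ≥ 1`, and `δ ≤ 1` if `t` is odd) and
`k ≥ c e + t + 3`.  For all sufficiently large `m`, all `m ≤ n ≤ m ^ d` and
`N, M ≤ m ^ d`, every circuit with at most `m ^ c` gates (NOT gates, and ANDs of ORs and ORs of ANDs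
of unbounded fan-in with inner fan-in at most `δ`) that maps the instances `z` (with `n` variables
and `m` values for every index, that is, with `n * m ^ (t + 1)` input bits) of the complete problem
`WSat (t + 1) 1 k` of `W[t + 2]` to equivalent instances of the complete problem `WSat t ρ g` of
`W[t + 1]` satisfies
`(n * m ^ (t + 1)) ^ e < m ^ (t + 2) * (4 ^ (t + 2) * k * 2 ^ nots) ^ e`, that is
`nots > log₂ (n * m ^ (t + 1)) - ((t + 2) / e) log₂ m - log₂ k - 2 (t + 2)`. -/
theorem result (t ρ c d e k g δ : ℕ) (hδ : δ ≤ 1 ∨ Even t) (he : 1 ≤ e)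
    (hk : c * e + t + 3 ≤ k) :
    ∃ m₀, ∀ m ≥ m₀, ∀ n, m ≤ n → n ≤ m ^ d → ∀ N ≤ m ^ d, ∀ M ≤ m ^ d,
    ∀ C : Circuit ((Fin 1 → Fin n) × (Fin (t + 1) → Fin m)) ((Fin ρ → Fin N) × (Fin t → Fin M)),
    C.Width δ → C.size ≤ m ^ c → Reduces C k g →
      (n * m ^ (t + 1)) ^ e < m ^ (t + 2) * (4 ^ (t + 2) * k * 2 ^ C.nots) ^ e :=
  main_nots t ρ c d e k g δ hδ he hk

end Pool.Agent.Results.MP_5f6b2a_lc.SharpNegations
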