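import Mathlib
import Pool.Agent.T9h47.WX.Final
import Pool.Agent.T9h47.WX.Bound

/-!
# The W-hierarchy: reductions must break symmetry. p-Dominating-Set and W[1]

A network is a finite acyclic graph of gates with several outputs. Its gates compute arbitrary
functions of the multisets of the values of their children (with roles), with values in an arbitrary
set `K`; so they include AND, OR, NOT, majority and counting gates of unbounded fan-in, and much
more. The input is a graph, given by its edge variables.

A reduction of a problem on graphs to p-Clique which is computed by a network has the following
form: there is a family of sets of gates (for each set of `g` vertices of the new graph, the gates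
which compute the pairs of these vertices) such that the given graph is a yes-instance if and only
if for one of these sets all gates have the value `1`. More generally we consider an arbitrary family
of certificates, each of which prescribes the values of at most `m` gates. This covers the reductions
to all problems of the form: are there `g` elements such that a given relation of fixed arity holds
for all tuples of these elements, which are the usual complete problems of W[1].

All networks are allowed. Let `H` be a set of vertices and let `N(C)` be the number of different
functions `G ↦ view g (σ G)` on the graphs with the vertex set `V`, for all gates `g` and all
permutations `σ` of `V` which fix the vertices outside `H`; here `view g x` is the value of `g` on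
the input `x` together with the multisets of the values of its children. So `N(C)` is at most the
number of gates if the network is symmetric with respect to `H` (every permutation of `H` extends to
an automorphism), and at most `|H|!` times the number of gates always.

We show `N(C) ≥ H.card.choose k` if the network decides in this way whether a graph has a dominating
set with at most `(k + 1).choose 2` elements, for every bound `m` on the size of the certificates, if
`H` is large. So p-Dominating-Set has no reduction to p-Clique which is computed by networks with
`N(C) ≤ f(κ) n ^ c`, in particular no symmetric one with `f(κ) n ^ c` gates, whatever the function
`f`, the constant `c`, and the new parameter `g(κ)` are.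

Proof. Assume `N(C) < H.card.choose k`. By a sharp form of the support theorem (subgroups of the
symmetric group of index less than `H.card.choose k` contain the even permutations which fix fewer
than `k` elements) the view of each gate depends on fewer than `k` vertices of `H` individually. The
hard instances are built from the complete graph with `k + 1` vertices: one has to choose a vector
`z_e` of `F_2 ^ Ω` for each edge `e`, and the other vertices of the instance check, for each `v` and
each coordinate `ω`, the sum of the `z_e(ω)` for the edges `e` at `v`. The no-instance has the wrong
sum at one coordinate. A given certificate touches few of the coordinates, and so the wrong coordinate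
can be chosen such that it is not touched. The even shifts of the vectors `z_e` are an abelian group
`S` which acts on the instances. By induction the value of a gate `g` does not change if the sum is
changed at a vertex `u` which is not in the support of `g`: the multisets of the values of the
children of `g` are averages over the elements of `S` which fix the support of `g`, and one of these
elements moves the defect from `u` to a vertex which is not in the support of a given child, along a
path with at most two edges which avoids the support of `g`.
-/

set_option autoImplicit false

namespace Pool.Agent.Results.MP_5f6b2a_lc.SymmetryBreaking

open Pool.Agent.T9h47.WH Pool.Agent.T9h47.WX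

theorem result :
    -- reductions of p-Dominating-Set to problems in W[1] have many views
    (∀ k m : ℕ, 1 ≤ k → ∃ h₀ : ℕ, ∀ (V : Type) [Fintype V] [DecidableEq V]
      (H : Finset V), h₀ ≤ H.card → ∀ (K : Type) (C : Net K (Sym2 V)) (b₀ b₁ : K)
      (𝒮 : Set (Finset (C.Gate × K))), (∀ P ∈ 𝒮, P.card ≤ m) →
      (∀ G : SimpleGraph V, (∃ P ∈ 𝒮, ∀ q ∈ P, C.val (graphInput b₀ b₁ G) q.1 = q.2) ↔
        ∃ S : Finset V, S.card ≤ (k + 1).choose 2 ∧ Dominates G S) →
      H.card.choose k ≤ (views H C b₀ b₁).ncard) ∧
    -- the number of views and the number of gates
    (∀ (V : Type) [Fintype V] [DecidableEq V] (H : Finset V) (K : Type) (C : Net K (Sym2 V))
      (b₀ b₁ : K), (SymOn C H → (views H C b₀ b₁).ncard ≤ @Fintype.card C.Gate C.fin) ∧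
      (views H C b₀ b₁).ncard ≤ H.card.factorial * @Fintype.card C.Gate C.fin) :=
  ⟨fun k m hk => dom_views k m hk,
    fun _ _ _ H _ C b₀ b₁ => ⟨fun hS => views_symm H C b₀ b₁ hS, views_le H C b₀ b₁⟩⟩

end Pool.Agent.Results.MP_5f6b2a_lc.SymmetryBreaking
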