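import Pool.Agent.T9h75.WX.Turing

set_option autoImplicit false

namespace Pool.Agent.Results.MP_5f6b2a_lc.TuringDomClique

open Pool.Agent.T9h75.WX

/-- **Turing reductions from `p`-Dominating Set to `p`-Clique: gates against NOT gates.**
For all `k ≥ 1` and `δ` there is a constant `K` such that, for all `n ≥ K`, every circuit with
NOT gates, ANDs of ORs and ORs of ANDs of unbounded fan-in with inner fan-in at most `δ`, and oracle
gates which tell whether the graph (of any size) given by their input wires has a clique of size `g`,
where `g ≤ δ`, which decides whether a graph on `n` vertices has a dominating set of size at most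
`k + 1`, satisfies `n ^ (2 k) < K * (number of gates) ^ 2 * 2 ^ (k * number of NOT gates)`. -/
theorem result : ∀ k ≥ 1, ∀ δ : ℕ, ∃ K : ℕ, ∀ n ≥ K,
    ∀ C : OCircuit (Fin n × Fin n), C.Width δ → C.DecidesDomSet (k + 1) →
      n ^ (2 * k) < K * C.size ^ 2 * 2 ^ (k * C.nots) :=
  fun k hk δ => turing_tradeoff k δ hk

end Pool.Agent.Results.MP_5f6b2a_lc.TuringDomClique
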